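import Pool.Agent.Run7.h35.EX.Stm

/-! Piece A2 of project EX (helper35). -/

set_option autoImplicit false
open scoped BigOperators

namespace Run7.h983.EX

open Run7.h35.EX

theorem av_nonneg {T : Type} [Fintype T] {f : T → ℝ} (h : ∀ t, 0 ≤ f t) : 0 ≤ av f :=
  div_nonneg (Finset.sum_nonneg fun t _ => h t) (Nat.cast_nonneg _)

theorem av_mono {T : Type} [Fintype T] {f g : T → ℝ} (h : ∀ t, f t ≤ g t) : av f ≤ av g :=
  div_le_div_of_nonneg_right (Finset.sum_le_sum fun t _ => h t) (Nat.cast_nonneg _)

theorem av_smul {T : Type} [Fintype T] (c : ℝ) (f : T → ℝ) :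
    av (fun t => c * f t) = c * av f := by
  unfold av
  rw [← Finset.mul_sum, mul_div_assoc]

theorem av_sq {T : Type} [Fintype T] (f : T → ℝ) : (av f) ^ 2 ≤ av fun t => f t ^ 2 := by
  unfold av
  rcases (Fintype.card T).eq_zero_or_pos with h | h
  · rw [h]
    simp
  · have h0 : (0 : ℝ) < Fintype.card T := by exact_mod_cast h
    have h1 : (∑ t, f t) ^ 2 ≤ (Fintype.card T : ℝ) * ∑ t, f t ^ 2 := by
      have h2 := sq_sum_le_card_mul_sum_sq (s := Finset.univ) (f := f)
      rwa [Finset.card_univ] at h2
    have h3 := mul_le_mul_of_nonneg_right h1 h0.le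
    rw [div_pow, div_le_div_iff₀ (by positivity) h0]
    linarith

theorem av_comm {T T' : Type} [Fintype T] [Fintype T'] (f : T → T' → ℝ) :
    (av fun t => av fun t' => f t t') = av fun t' => av fun t => f t t' := by
  unfold av
  rw [← Finset.sum_div, ← Finset.sum_div, Finset.sum_comm, div_div, div_div, mul_comm]

theorem t_A2 : S_CORR → S_A2 := by
  intro hC V ι _ _ _ _ s η R hη hG hR a ha hs
  have e1 : (av fun x => av fun j => psi a x * psi a (x + s j)) =
      av fun x => psi a x * av fun j => psi a (x + s j) := by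
    congr 1
    funext x
    exact av_smul _ _
  rw [e1]
  refine (hC V ι s η hη hG (psi a) (psi a)).trans ?_
  have h2 : av (fun x => psi a x ^ 2) ≤ 1 := by
    refine le_trans (av_mono fun x => ?_) ha
    refine (av_sq _).trans (av_mono fun j => ?_)
    exact (Real.sq_sqrt (abs_nonneg _)).le
  have h2' : 0 ≤ av (fun x => psi a x ^ 2) := av_nonneg fun x => sq_nonneg _
  have h1 : (av (psi a)) ^ 2 ≤ 1 / R := by
    have e2 : av (psi a) = av fun j => av fun x => Real.sqrt |a x j| := av_comm _
    rw [e2]
    refine (av_sq _).trans ?_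
    have h3 : ∀ j, (av fun x => Real.sqrt |a x j|) ^ 2 ≤ (1 / R) * Mi a j := by
      intro j
      have hM : 0 ≤ Mi a j := av_nonneg fun x => abs_nonneg _
      have hu : 0 ≤ av fun x => Real.sqrt |a x j| := av_nonneg fun x => Real.sqrt_nonneg _
      have hA : (av fun x => Real.sqrt |a x j|) ^ 2 ≤ Mi a j :=
        (av_sq _).trans (av_mono fun x => (Real.sq_sqrt (abs_nonneg _)).le)
      have hB : Real.sqrt (R * Mi a j) * (av fun x => Real.sqrt |a x j|) ≤ Mi a j := by
        rw [← av_smul]
        refine av_mono fun x => ?_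
        by_cases h0 : a x j = 0
        · rw [h0]
          simp
        · calc Real.sqrt (R * Mi a j) * Real.sqrt |a x j|
              ≤ Real.sqrt |a x j| * Real.sqrt |a x j| :=
                mul_le_mul_of_nonneg_right (Real.sqrt_le_sqrt (hs x j h0)) (Real.sqrt_nonneg _)
            _ = |a x j| := Real.mul_self_sqrt (abs_nonneg _)
      rcases hM.eq_or_lt with h0 | h0
      · rw [← h0] at hA ⊢
        simpa using hA
      · have h5 := pow_le_pow_left₀ (mul_nonneg (Real.sqrt_nonneg _) hu) hB 2
        rw [mul_pow, Real.sq_sqrt (mul_nonneg hR.le hM)] at h5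
        have h6 : R * (av fun x => Real.sqrt |a x j|) ^ 2 ≤ Mi a j := by
          refine le_of_mul_le_mul_left ?_ h0
          linarith
        rw [one_div, ← div_eq_inv_mul, le_div_iff₀ hR]
        linarith
    refine (av_mono h3).trans ?_
    rw [av_smul]
    have h4 : av (fun j => Mi a j) ≤ 1 := by
      have e3 : av (fun j => Mi a j) = nrm1 a := (av_comm fun x i => |a x i|).symm
      rw [e3]
      exact ha
    calc 1 / R * av (fun j => Mi a j) ≤ 1 / R * 1 :=
          mul_le_mul_of_nonneg_left h4 (by positivity)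
      _ = 1 / R := mul_one _
  rw [Real.mul_self_sqrt h2', ← sq]
  have h7 : η * av (fun x => psi a x ^ 2) ≤ η * 1 := mul_le_mul_of_nonneg_left h2 hη
  linarith

end Run7.h983.EX
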